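import Pool.Agent.Y976.TH.All

/-!
# Which inverse temperatures give intermediate diameter exponents

The definitions `env`, `treeWt`, `gibbs`, `avg` are in `Pool.Agent.TH972.RDefs`.
-/

set_option autoImplicit false

open Filter Topology Pool.Agent.TH972.RSTRE Pool.Agent.Y976.TH

namespace Pool.Agent.Results.MP_f8cd8e_pr.WindowCharacterization

/-- (1) For all `1/3 ≤ a < b ≤ 1/2` the sequence `β_n = n ^ (2 - a - b)` has
`n ^ a ≤ diam ≤ n ^ b` with probability tending to one. (2) Uniformly over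
`n ^ (1 + c) ≤ β ≤ n ^ (4/3 - c)` the exponent of the diameter is in
`[1/3 + c/4, 1/2 - c/4]` with high probability. (3) A sequence `β_n ≥ 0` is an example for the
question if and only if `n ^ (1 + c) ≤ β_n ≤ n ^ (4/3 - c)` for all large `n`, for some
`c > 0`. -/
theorem result :
    (∀ a b : ℝ, 1 / 3 ≤ a → a < b → b ≤ 1 / 2 →
      Tendsto (fun n : ℕ => avg ((n : ℝ) ^ (2 - a - b)) n (fun T =>
        (n : ℝ) ^ a ≤ (T.diam : ℝ) ∧ (T.diam : ℝ) ≤ (n : ℝ) ^ b)) atTop (𝓝 1)) ∧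
    (∀ c η : ℝ, 0 < c → 0 < η → ∀ᶠ n : ℕ in atTop, ∀ β : ℝ, (n : ℝ) ^ (1 + c) ≤ β →
      β ≤ (n : ℝ) ^ (4 / 3 - c) → 1 - η ≤ avg β n (fun T =>
        (n : ℝ) ^ (1 / 3 + c / 4) ≤ (T.diam : ℝ) ∧
          (T.diam : ℝ) ≤ (n : ℝ) ^ (1 / 2 - c / 4))) ∧
    (∀ β : ℕ → ℝ, (∀ n, 0 ≤ β n) →
      ((∃ a b : ℝ, 1 / 3 < a ∧ a ≤ b ∧ b < 1 / 2 ∧
        Tendsto (fun n : ℕ => avg (β n) n (fun T =>
          (n : ℝ) ^ a ≤ (T.diam : ℝ) ∧ (T.diam : ℝ) ≤ (n : ℝ) ^ b)) atTop (𝓝 1)) ↔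
      ∃ c : ℝ, 0 < c ∧ ∀ᶠ n : ℕ in atTop,
        (n : ℝ) ^ (1 + c) ≤ β n ∧ β n ≤ (n : ℝ) ^ (4 / 3 - c))) := by
  refine ⟨?_, fun c η hc hη => mid_unif hc hη, fun β hβ => iff_window2 hβ⟩
  intro a b ha hab hb
  have h0 : 0 < 1 - a - b := by linarith
  have h3 : 1 - a - b < 1 / 3 := by linarith
  have h := Pool.Agent.TH972.U.sharp_exp (1 - a - b) h0 h3 (fun n => (n : ℝ) ^ (2 - a - b))
    (fun n => by positivity) (by
      apply tendsto_const_nhds.congr'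
      filter_upwards [eventually_ge_atTop 2] with n hn
      have hn1 : (1 : ℝ) < n := by exact_mod_cast hn
      have hL : 0 < Real.log n := Real.log_pos hn1
      rw [Real.log_rpow (by linarith)]
      field_simp
      ring) ((b - a) / 2) (by linarith)
  have e1 : (1 - (1 - a - b)) / 2 - (b - a) / 2 = a := by ring
  have e2 : (1 - (1 - a - b)) / 2 + (b - a) / 2 = b := by ring
  rw [e1, e2] at h
  exact h

end Pool.Agent.Results.MP_f8cd8e_pr.WindowCharacterization
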